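import Mathlib

namespace Pool.Agent.Results.MP_2a72d7_pr.Singular
open MeasureTheory Filter
open scoped ENNReal Topology

/-- the simple tensor `x_1 ⊗ ⋯ ⊗ x_d` as a vector of `ℝ^{n^d}` -/
def tensor {n d : ℕ} (x : Fin d → Fin n → ℝ) : EuclideanSpace ℝ (Fin d → Fin n) :=
  WithLp.toLp 2 fun f => ∏ k, x k (f k)

/-- `σ_min ≥ σ` for the matrix with columns `X_1, …, X_m` -/
def SigmaGe {n d m : ℕ} (σ : ℝ) (ω : Fin m → Fin d → Fin n → ℝ) : Prop :=
  ∀ a : EuclideanSpace ℝ (Fin m), σ * ‖a‖ ≤ ‖∑ i, a i • tensor (ω i)‖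

/-- all `m d n` coordinates i.i.d. of law `ν` -/
noncomputable def law (ν : Measure ℝ) (n d m : ℕ) : Measure (Fin m → Fin d → Fin n → ℝ) :=
  Measure.pi fun _ => Measure.pi fun _ => Measure.pi fun _ => ν

noncomputable def ν0 : Measure ℝ :=
  (2⁻¹ : ℝ≥0∞) • Measure.dirac 0 + (4⁻¹ : ℝ≥0∞) • (Measure.dirac √2 + Measure.dirac (-√2))

lemma h4 : (2⁻¹ : ℝ≥0∞) + 4⁻¹ * 2 = 1 := by
  rw [show (4 : ℝ≥0∞) = 2 * 2 by norm_num, ENNReal.mul_inv (by simp) (by simp), mul_assoc,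
    ENNReal.inv_mul_cancel (by simp) (by simp), mul_one, ENNReal.inv_two_add_inv_two]

instance : IsProbabilityMeasure ν0 := ⟨by simpa [ν0, mul_two] using h4⟩

lemma int0 (f : ℝ → ℝ) : ∫ x, f x ∂ν0 = f 0 / 2 + (f √2 + f (-√2)) / 4 := by
  have h : ∀ x, Integrable f (Measure.dirac x) := fun x => integrable_dirac (by simp)
  rw [ν0, integral_add_measure ((h _).smul_measure (by simp))
    (((h _).add_measure (h _)).smul_measure (by simp)), integral_smul_measure,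
    integral_smul_measure, integral_add_measure (h _) (h _)]
  simp; ring

lemma bound (n m : ℕ) : law ν0 (n + 1) (n + 1) m {ω | ∃ σ > 0, SigmaGe σ ω} ≤
    (1 - 2⁻¹ ^ (n + 1)) ^ m := by
  have hm : MeasurableSet ({0} : Set (Fin (n + 1) → ℝ)) := measurableSet_singleton _
  have h1 : Measure.pi (fun _ : Fin (n + 1) => Measure.pi fun _ : Fin (n + 1) => ν0)
      (Function.eval 0 ⁻¹' {0}ᶜ) = 1 - 2⁻¹ ^ (n + 1) := by
    rw [(measurePreserving_eval _ 0).measure_preimage hm.compl.nullMeasurableSet,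
      prob_compl_eq_one_sub hm, Measure.pi_singleton]
    simp [ν0]
  refine (measure_mono (t := Set.pi Set.univ fun _ => Function.eval 0 ⁻¹' {0}ᶜ) ?_).trans_eq ?_
  · rintro ω ⟨σ, h0, h⟩ i - (hi : ω i 0 = 0)
    have h2 : tensor (ω i) = 0 := by
      ext f; exact Finset.prod_eq_zero (Finset.mem_univ (0 : Fin (n + 1))) (by simp [hi])
    have := h (EuclideanSpace.single i 1)
    rw [Finset.sum_eq_single i (by simp +contextual) (by simp), h2] at this
    simp at this; linarith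
  · rw [law, Measure.pi_pi, h1]; simp

theorem result : ∃ ν : Measure ℝ, IsProbabilityMeasure ν ∧ ∫ x, x ∂ν = 0 ∧ ∫ x, x ^ 2 ∂ν = 1 ∧
    (∀ᵐ x ∂ν, |x| ≤ 2) ∧ ∀ ε : ℝ, 0 < ε → ε < 1 →
      Tendsto (fun n : ℕ => law ν n n ⌊(1 - ε) * n ^ n⌋₊ {ω | ∃ σ > 0, SigmaGe σ ω}) atTop (𝓝 0) := by
  refine ⟨ν0, inferInstance, by simp [int0], by rw [int0]; norm_num, ?_, fun ε _ h1 => ?_⟩
  · simp [ae_iff, ν0, Set.indicator, abs_of_nonneg]
  rw [← tendsto_add_atTop_iff_nat 1]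
  have t1 : Tendsto (fun n : ℕ => (⌊(1 - ε) * (n : ℝ) ^ n⌋₊ : ℝ) * 2⁻¹ ^ n) atTop atTop := by
    refine tendsto_atTop_mono' _ ((eventually_ge_atTop 4).mono fun n hn => ?_)
      (tendsto_atTop_add_const_right _ (-1) ((tendsto_pow_atTop_atTop_of_one_lt
        (one_lt_two (α := ℝ))).const_mul_atTop (sub_pos.2 h1)))
    have h2 : (4 : ℝ) ^ n ≤ n ^ n := by gcongr; exact_mod_cast hn
    have h3 : (2⁻¹ : ℝ) ^ n ≤ 1 := pow_le_one₀ (by norm_num) (by norm_num)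
    have h4 : (4 : ℝ) ^ n * 2⁻¹ ^ n = 2 ^ n := by rw [← mul_pow]; norm_num
    have h5 := mul_le_mul_of_nonneg_right ((mul_le_mul_of_nonneg_left h2
      (sub_pos.2 h1).le).trans (Nat.lt_floor_add_one _).le) (show (0 : ℝ) ≤ 2⁻¹ ^ n by positivity)
    rw [mul_assoc, h4] at h5
    linarith
  have t2 := ENNReal.tendsto_ofReal (Real.tendsto_exp_neg_atTop_nhds_zero.comp
    ((tendsto_add_atTop_iff_nat 1).2 t1))
  rw [ENNReal.ofReal_zero] at t2
  refine tendsto_of_tendsto_of_tendsto_of_le_of_le tendsto_const_nhds t2 (fun _ => bot_le)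
    fun n => (bound n _).trans ?_
  simp only [Function.comp]
  rw [← mul_neg, Real.exp_nat_mul, ENNReal.ofReal_pow (Real.exp_pos _).le]
  refine pow_le_pow_left' (le_trans (le_of_eq ?_)
    (ENNReal.ofReal_le_ofReal (Real.one_sub_le_exp_neg _))) _
  rw [ENNReal.ofReal_sub _ (by positivity), ENNReal.ofReal_pow (by norm_num),
    ENNReal.ofReal_inv_of_pos two_pos]
  simp

end Pool.Agent.Results.MP_2a72d7_pr.Singular
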